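import Pool.Agent.helper56.NZ.Spec

/-!
# Project nz:, module ONE: one scale

Author: helper93 (spec and proof plan by helper56).
-/

set_option autoImplicit false

open Complex Metric Set Filter Topology MeasureTheory
open Pool.Agent.helper98.ILF Pool.Agent.helper16.Multibrot
open HY (UD T S hd UN RM VV SG Orb fz)

noncomputable section

namespace NZ

theorem ONE_low {n : ℕ} {c x : ℂ} (h : ∀ k : ℕ, (fz n c)^[k] x ≠ 0) (T₀ : ℕ) :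
    ∃ ε₀ > (0 : ℝ), ∀ i < T₀, ε₀ ≤ ‖(fz n c)^[i] x‖ := by
  induction T₀ with
  | zero => exact ⟨1, one_pos, fun i hi => absurd hi (Nat.not_lt_zero i)⟩
  | succ T ih =>
    obtain ⟨e, he, h'⟩ := ih
    refine ⟨min e ‖(fz n c)^[T] x‖, lt_min he (norm_pos_iff.2 (h T)), fun i hi => ?_⟩
    rcases Nat.lt_succ_iff_lt_or_eq.1 hi with h1 | h1
    · exact (min_le_left _ _).trans (h' i h1)
    · rw [h1]; exact min_le_right _ _

theorem ONE (hMPL : MPL_stmt) (hPIK : PIK_stmt) (hNEU : NEU_stmt) (hTYP : TYP_stmt) (hMON : MON_stmt)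
    (hSHR : HY.SHR_stmt) (hSGE : HY.SGE_stmt) (hVKB : HY.VKB_stmt) (hMOB : HY.MOB_stmt) (hKO0 : V3.KO0_stmt)
    (hKO1 : V3.KO1_stmt) (hBRG : BR.BRG_stmt) : ONE_stmt := by
  intro n hn r hr
  have hn2 : 2 ≤ n := by omega
  obtain ⟨M, hM1, hM⟩ := hMPL n hn2 r hr
  obtain ⟨p, hp⟩ : ∃ p : ℝ, p = (1 / 2 : ℝ) ^ M := ⟨_, rfl⟩
  have hp0 : 0 < p := by rw [hp]; positivity
  have hp1 : p ≤ 1 / 2 := by
    rw [hp]
    calc (1 / 2 : ℝ) ^ M ≤ (1 / 2 : ℝ) ^ 1 := pow_le_pow_of_le_one (by norm_num) (by norm_num) hM1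
      _ = 1 / 2 := by norm_num
  obtain ⟨t, ht⟩ : ∃ t : ℝ, t = 1 - p := ⟨_, rfl⟩
  obtain ⟨τ, hτ⟩ : ∃ τ : ℝ, τ = 1 - p / 2 := ⟨_, rfl⟩
  have ht0 : 0 < t := by linarith
  have ht1 : t < 1 := by linarith
  have hτ2 : 1 / 2 ≤ τ := by linarith
  have hτ0 : 0 < τ := by linarith
  have hτ1 : τ < 1 := by linarith
  have htτ : t < τ := by linarith
  obtain ⟨ε, hε, q, hq, hpik⟩ := hPIK (t / τ) (div_pos ht0 hτ0) ((div_lt_one hτ0).2 htτ)
  obtain ⟨δ, hδ, hm⟩ := hM ε hε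
  obtain ⟨c₁, C, hc₁, hC, hneu⟩ := hNEU n hn2 δ τ t hδ hτ0 hτ1 ht0 ht1
  refine ⟨c₁, C, hc₁, hC, fun c hc hd => ?_⟩
  have hcl : c ∉ closure (hyperbolic n) := by
    intro h
    obtain ⟨z, hz, hz'⟩ := Metric.mem_closure_iff.1 h r hr
    exact Set.disjoint_left.1 hd (by rw [mem_ball, dist_comm]; exact hz') hz
  obtain ⟨-, hint, -, -⟩ := hBRG n c r hn2 hr hc hd
  obtain ⟨x, hx, hstar, hnz, hnear⟩ := hTYP n hn c hc hcl
  obtain ⟨T₀, hT₀⟩ := hstar q hq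
  obtain ⟨ε₀, hε₀, hlow⟩ := ONE_low hnz T₀
  obtain ⟨k₀, hk₀⟩ := hSHR n c hn2 hc hint ε₀ hε₀ p hp0
  refine ⟨k₀, fun k hk => ?_⟩
  obtain ⟨φ, ψ, b, hsg⟩ := hSGE n c hn2 hc k
  refine ⟨φ, hsg.rm, ?_⟩
  obtain ⟨-, -, -, -, hinv, -, -, -, -, hsub, -, -⟩ := hVKB n c hn2 hc
  have hfil : ∀ i, (fz n c)^[i] x ∈ filled n c := by
    intro i
    induction i with
    | zero => simpa using hx
    | succ i ih => rw [Function.iterate_succ_apply']; exact hinv _ ih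
  have hy : ∀ i, ∃ y ∈ UD, φ y = (fz n c)^[i] x := by
    intro i
    have h1 : (fz n c)^[i] x ∈ φ '' UD := by rw [hsg.rm.img]; exact hsub k (hfil i)
    obtain ⟨y, hy, hy'⟩ := h1
    exact ⟨y, hy, hy'⟩
  choose y hyU hyv using hy
  have h0U : (0 : ℂ) ∈ UD := mem_ball_self one_pos
  have hex : ∃ j, p < 1 - ‖y j‖ := by
    obtain ⟨K, hK, hk1⟩ := hKO1
    have hsub' : ball (0 : ℂ) (1 / 2) ⊆ UD := ball_subset_ball (by norm_num)
    have h1 := hk1 φ 0 (1 / 2) (by norm_num) (hsg.rm.dif.mono hsub') (hsg.rm.inj.mono hsub')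
    have hd0 : deriv φ 0 ≠ 0 := hKO0 φ UD isOpen_ball hsg.rm.dif hsg.rm.inj 0 h0U
    obtain ⟨j, hj⟩ := hnear (1 / 2 * ‖deriv φ 0‖ / K) (by
      have := norm_pos_iff.2 hd0
      positivity)
    have h2 : (fz n c)^[j] x ∈ φ '' ball (0 : ℂ) (1 / 2) := by
      apply h1
      rw [hsg.rm.val, mem_ball_zero_iff]
      exact hj
    obtain ⟨u, hu, hu'⟩ := h2
    have h3 : y j = u := hsg.rm.inj (hyU j) (hsub' hu) (by rw [hyv, hu'])
    refine ⟨j, ?_⟩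
    rw [h3]
    rw [mem_ball_zero_iff] at hu
    linarith
  classical
  obtain ⟨j, hj1, hj2⟩ : ∃ j, p < 1 - ‖y j‖ ∧ ∀ i < j, 1 - ‖y i‖ ≤ p :=
    ⟨Nat.find hex, Nat.find_spec hex, fun i hi => not_lt.1 (Nat.find_min hex hi)⟩
  have hjT : T₀ ≤ j := by
    by_contra hlt
    push Not at hlt
    obtain ⟨φ₀, ψ₀, b₀, hsg₀⟩ := hSGE n c hn2 hc k₀
    have h1 : (fz n c)^[j] x ∈ φ₀ '' UD := by rw [hsg₀.rm.img]; exact hsub k₀ (hfil j)
    obtain ⟨x₀, hx₀, hx₀'⟩ := h1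
    have h2 := hk₀ φ₀ hsg₀.rm x₀ hx₀ (by rw [hx₀']; exact hfil j) (by rw [hx₀']; exact hlow j hlt)
    have h3 := (hMON n c hn2 hc k₀ k φ₀ φ hk hsg₀.rm hsg.rm).2 x₀ hx₀ (y j) (hyU j) (by rw [hx₀', hyv])
    linarith
  have horb : Orb n c φ M y j :=
    ⟨fun i _ => hyU i, fun i _ => by rw [hyv, hyv, Function.iterate_succ_apply'],
      fun i hi => by rw [← hp]; exact hj2 i hi⟩
  have hyj : ‖y j‖ ≤ t := by linarith
  rcases hm τ hτ2 hτ1 c hc hd (VV n c k) φ ψ b hsg y j horb with hcln | hneu'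
  · exfalso
    obtain ⟨σ, g, hσ, hσ0, hσd, hg, hg0, hrel⟩ := hcln
    obtain ⟨hmob1, -, -, -, hSd, -, hSi, -⟩ := hMOB (y j) (hyU j)
    have hτσ : ∀ z ∈ UD, (τ : ℂ) * σ z ∈ UD := by
      intro z hz
      have h1 : ‖σ z‖ < 1 := mem_ball_zero_iff.1 (hσ.map hz)
      rw [UD, mem_ball_zero_iff, norm_mul, Complex.norm_real, Real.norm_of_nonneg hτ0.le]
      nlinarith [norm_nonneg (σ z)]
    have hSm : MapsTo (S (y j)) UD UD := fun z hz => (hmob1 z hz).2.1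
    have hpp : ‖-y j / (τ : ℂ)‖ ≤ t / τ := by
      rw [norm_div, norm_neg, Complex.norm_real, Real.norm_of_nonneg hτ0.le]
      exact div_le_div_of_nonneg_right hyj hτ0.le
    obtain ⟨b', hb'q, hb'U, hb'⟩ := hpik σ hσ hσ0 hσd _ hpp
    refine hT₀ j hjT (fun z => φ (S (y j) (τ * σ z))) g b' ?_ ?_ hg hrel ?_ hb'q ?_
    · exact hsg.rm.dif.comp (hSd.comp (hσ.dif.const_mul _) hτσ) (fun z hz => hSm (hτσ z hz))
    · intro z hz w hw hzw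
      have h1 := hsg.rm.inj (hSm (hτσ z hz)) (hSm (hτσ w hw)) hzw
      have h2 := hSi (hτσ z hz) (hτσ w hw) h1
      have hτc : (τ : ℂ) ≠ 0 := by exact_mod_cast hτ0.ne'
      exact hσ.inj hz hw (mul_left_cancel₀ hτc h2)
    · rw [hg0, hyv]; rfl
    · have hτc : (τ : ℂ) ≠ 0 := by exact_mod_cast hτ0.ne'
      have h1 : S (y j) ((τ : ℂ) * σ b') = 0 := by
        rw [hb', mul_div_cancel₀ _ hτc, S]
        simp
      show φ (S (y j) ((τ : ℂ) * σ b')) = 0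
      rw [h1, hsg.rm.val]
  · exact hneu c hc k φ ψ b hsg y j hyj hneu'

end NZ
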